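import Pool.Agent.H83.AVR.EQB
import Pool.Agent.H14.AVS.S4

/-!
# FDN: few cubics have a discriminant divisible by a high power
-/

set_option autoImplicit false

open Polynomial Matrix

namespace Pool.AVS

open Pool.AVR

namespace FDN

variable {F : Type} [Field F]

/-- Divisibility by powers of a prime. -/
theorem pp {P : F[X]} (hP : Irreducible P) {x y : F[X]} {N r : ℕ} (h : P ^ N ∣ x * y)
    (hr : ¬ P ^ r ∣ x) : P ^ (N + 1 - r) ∣ y := by
  have hx : x ≠ 0 := by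
    rintro rfl
    exact hr (dvd_zero _)
  obtain ⟨k, x', hx', rfl⟩ := WfDvdMonoid.max_power_factor hx hP
  have hk : k < r := by
    by_contra hk
    exact hr ((pow_dvd_pow P (not_lt.1 hk)).trans (Dvd.intro _ rfl))
  rcases Nat.lt_or_ge N k with hNk | hNk
  · have : N + 1 - r = 0 := by omega
    rw [this, pow_zero]
    exact one_dvd _
  · have h1 : P ^ (N - k) ∣ x' * y := by
      have h2 : P ^ k * P ^ (N - k) ∣ P ^ k * (x' * y) := by
        rw [← pow_add, Nat.add_sub_cancel' hNk, ← mul_assoc]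
        exact h
      exact (mul_dvd_mul_iff_left (pow_ne_zero k hP.ne_zero)).1 h2
    have h3 : P ^ (N - k) ∣ y := hP.prime.pow_dvd_of_dvd_mul_left _ hx' h1
    exact (pow_dvd_pow P (by omega)).trans h3

theorem classes {P : F[X]} (hP : Irreducible P) (h2 : (2 : F) ≠ 0) {N r : ℕ}
    (hN : 4 * r ≤ N) (hr : 1 ≤ r) {a b : F[X]} (ha : (3 : F) ≠ 0 ∨ ¬ P ^ r ∣ a) {c₁ c₂ c₃ : F[X]}
    (h₁ : P ^ N ∣ disc a b c₁) (h₂ : P ^ N ∣ disc a b c₂) (h₃ : P ^ N ∣ disc a b c₃) :
    P ^ r ∣ c₁ - c₂ ∨ P ^ r ∣ c₁ - c₃ ∨ P ^ r ∣ c₂ - c₃ := by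
  by_contra hcon
  push Not at hcon
  obtain ⟨k12, k13, k23⟩ := hcon
  have e12 : P ^ N ∣ (c₁ - c₂) * (-27 * (c₁ + c₂) + (18 * a * b - 4 * a ^ 3)) := by
    have : (c₁ - c₂) * (-27 * (c₁ + c₂) + (18 * a * b - 4 * a ^ 3)) =
        disc a b c₁ - disc a b c₂ := by
      unfold disc
      ring
    rw [this]
    exact dvd_sub h₁ h₂
  have e13 : P ^ N ∣ (c₁ - c₃) * (-27 * (c₁ + c₃) + (18 * a * b - 4 * a ^ 3)) := by
    have : (c₁ - c₃) * (-27 * (c₁ + c₃) + (18 * a * b - 4 * a ^ 3)) =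
        disc a b c₁ - disc a b c₃ := by
      unfold disc
      ring
    rw [this]
    exact dvd_sub h₁ h₃
  have d12 := pp hP e12 k12
  have d13 := pp hP e13 k13
  by_cases h3 : (3 : F) = 0
  · have ha' : ¬ P ^ r ∣ a := by
      rcases ha with h | h
      · exact absurd h3 h
      · exact h
    have h3' : (3 : F[X]) = 0 := by
      have h5 : (C (3 : F) : F[X]) = 3 := map_ofNat C 3
      rw [← h5, h3, C_0]
    have e4 : -27 * (c₁ + c₂) + (18 * a * b - 4 * a ^ 3) = C (-4 : F) * (a * (a * a)) := by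
      have : (C (-4 : F) : F[X]) = -4 := by
        rw [map_neg]
        exact congrArg Neg.neg (map_ofNat C 4)
      rw [this]
      linear_combination (-9 * (c₁ + c₂) + 6 * a * b) * h3'
    rw [e4] at d12
    have h4 : (-4 : F) ≠ 0 := by
      have : (-4 : F) = -(2 * 2) := by norm_num
      rw [this]
      exact neg_ne_zero.2 (mul_ne_zero h2 h2)
    have d1 : P ^ (N + 1 - r) ∣ a * (a * a) := by
      have hu : IsUnit (C (-4 : F) : F[X]) := isUnit_C.2 (isUnit_iff_ne_zero.2 h4)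
      exact (hu.dvd_mul_left).1 d12
    have d2 := pp hP d1 ha'
    have d3 := pp hP d2 ha'
    exact ha' ((pow_dvd_pow P (by omega)).trans d3)
  · have e5 : P ^ (N + 1 - r) ∣ C (-27 : F) * (c₂ - c₃) := by
      have : C (-27 : F) * (c₂ - c₃) = (-27 * (c₁ + c₂) + (18 * a * b - 4 * a ^ 3)) -
          (-27 * (c₁ + c₃) + (18 * a * b - 4 * a ^ 3)) := by
        have : (C (-27 : F) : F[X]) = -27 := by
          rw [map_neg]
          exact congrArg Neg.neg (map_ofNat C 27)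
        rw [this]
        ring
      rw [this]
      exact dvd_sub d12 d13
    have h27 : (-27 : F) ≠ 0 := by
      have : (-27 : F) = -(3 * 3 * 3) := by norm_num
      rw [this]
      exact neg_ne_zero.2 (mul_ne_zero (mul_ne_zero h3 h3) h3)
    have d1 : P ^ (N + 1 - r) ∣ c₂ - c₃ := by
      have hu : IsUnit (C (-27 : F) : F[X]) := isUnit_C.2 (isUnit_iff_ne_zero.2 h27)
      exact (hu.dvd_mul_left).1 e5
    exact k23 ((pow_dvd_pow P (by omega)).trans d1)

/-- The multiples of `P ^ r` in `F[X] / P ^ N`. -/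
def I (P : F[X]) (N r : ℕ) : Set (AdjoinRoot (P ^ N)) :=
  {x | AdjoinRoot.mk (P ^ N) (P ^ r) ∣ x}

theorem mem_I {P : F[X]} {N r : ℕ} (h : r ≤ N) (x : F[X]) :
    AdjoinRoot.mk (P ^ N) x ∈ I P N r ↔ P ^ r ∣ x := by
  constructor
  · rintro ⟨z, hz⟩
    obtain ⟨w, rfl⟩ := AdjoinRoot.mk_surjective z
    rw [← map_mul, AdjoinRoot.mk_eq_mk] at hz
    have h1 : P ^ r ∣ x - P ^ r * w := (pow_dvd_pow P h).trans hz
    exact (dvd_sub_left (Dvd.intro w rfl)).1 h1
  · rintro ⟨w, rfl⟩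
    exact ⟨AdjoinRoot.mk _ w, by rw [map_mul]⟩

theorem card_I [Finite F] {P : F[X]} (hP : P ≠ 0) {N r : ℕ} (h : r ≤ N) :
    (I P N r).Finite ∧ (I P N r).ncard ≤ Nat.card F ^ ((N - r) * P.natDegree) := by
  obtain ⟨f1, c1⟩ := EQB_adj F (P ^ (N - r)) (pow_ne_zero _ hP)
  obtain ⟨f2, c2⟩ := EQB_adj F (P ^ N) (pow_ne_zero _ hP)
  refine ⟨Set.toFinite _, ?_⟩
  have hsub : I P N r ⊆ Set.range fun z : AdjoinRoot (P ^ (N - r)) =>
      AdjoinRoot.mk (P ^ N) (P ^ r * lft z) := by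
    rintro x ⟨z, hz⟩
    obtain ⟨w, rfl⟩ := AdjoinRoot.mk_surjective z
    refine ⟨AdjoinRoot.mk _ w, ?_⟩
    simp only
    rw [hz, ← map_mul, AdjoinRoot.mk_eq_mk, ← mul_sub]
    have h1 : P ^ (N - r) ∣ lft (AdjoinRoot.mk (P ^ (N - r)) w) - w := by
      rw [← AdjoinRoot.mk_eq_mk]
      exact Function.surjInv_eq AdjoinRoot.mk_surjective _
    have h2 : P ^ N = P ^ r * P ^ (N - r) := by
      rw [← pow_add, Nat.add_sub_cancel' h]
    rw [h2]
    exact mul_dvd_mul_left _ h1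
  calc (I P N r).ncard ≤ (Set.range fun z : AdjoinRoot (P ^ (N - r)) =>
      AdjoinRoot.mk (P ^ N) (P ^ r * lft z)).ncard := Set.ncard_le_ncard hsub (Set.toFinite _)
    _ ≤ Nat.card (AdjoinRoot (P ^ (N - r))) := by
        rw [← Set.image_univ, ← Set.ncard_univ]
        exact Set.ncard_image_le (Set.toFinite _)
    _ = Nat.card F ^ ((N - r) * P.natDegree) := by rw [c1, natDegree_pow]

theorem fib [Finite F] {P : F[X]} (hP : Irreducible P) (h2 : (2 : F) ≠ 0) {N r : ℕ}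
    (hN : 4 * r ≤ N) (hr : 1 ≤ r) (a b : AdjoinRoot (P ^ N)) (ha : (3 : F) ≠ 0 ∨ a ∉ I P N r) :
    {c : AdjoinRoot (P ^ N) | disc a b c = 0}.ncard ≤
      2 * Nat.card F ^ ((N - r) * P.natDegree) := by
  obtain ⟨f2, -⟩ := EQB_adj F (P ^ N) (pow_ne_zero _ hP.ne_zero)
  obtain ⟨-, cI⟩ := card_I (F := F) hP.ne_zero (show r ≤ N by omega)
  have hcl : ∀ c₀ : AdjoinRoot (P ^ N), {c : AdjoinRoot (P ^ N) | c - c₀ ∈ I P N r}.ncard ≤
      Nat.card F ^ ((N - r) * P.natDegree) := by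
    intro c₀
    have : {c : AdjoinRoot (P ^ N) | c - c₀ ∈ I P N r} = (fun x => x + c₀) '' (I P N r) := by
      ext c
      constructor
      · intro hc
        exact ⟨c - c₀, hc, by simp⟩
      · rintro ⟨x, hx, rfl⟩
        simpa using hx
    rw [this]
    exact (Set.ncard_image_le (Set.toFinite _)).trans cI
  set C₀ := {c : AdjoinRoot (P ^ N) | disc a b c = 0} with hC₀
  by_cases hne : C₀.Nonempty
  · obtain ⟨c₁, hc₁⟩ := hne
    by_cases hne2 : ∃ c₂ ∈ C₀, c₂ - c₁ ∉ I P N r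
    · obtain ⟨c₂, hc₂, hc12⟩ := hne2
      have hsub : C₀ ⊆ {c | c - c₁ ∈ I P N r} ∪ {c | c - c₂ ∈ I P N r} := by
        intro c₃ hc₃
        obtain ⟨A, rfl⟩ := AdjoinRoot.mk_surjective a
        obtain ⟨B, rfl⟩ := AdjoinRoot.mk_surjective b
        obtain ⟨D₁, rfl⟩ := AdjoinRoot.mk_surjective c₁
        obtain ⟨D₂, rfl⟩ := AdjoinRoot.mk_surjective c₂
        obtain ⟨D₃, rfl⟩ := AdjoinRoot.mk_surjective c₃
        have hd : ∀ D : F[X], disc (AdjoinRoot.mk (P ^ N) A) (AdjoinRoot.mk (P ^ N) B)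
            (AdjoinRoot.mk (P ^ N) D) = 0 → P ^ N ∣ disc A B D := by
          intro D h
          have : AdjoinRoot.mk (P ^ N) (disc A B D) = 0 := by
            rw [← h]
            unfold disc
            simp only [map_sub, map_add, map_mul, map_pow, map_ofNat]
          exact AdjoinRoot.mk_eq_zero.1 this
        have hrN : r ≤ N := by omega
        rw [mem_I hrN] at ha
        rcases classes hP h2 hN hr ha (hd _ hc₁) (hd _ hc₂) (hd _ hc₃) with h | h | h
        · exfalso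
          apply hc12
          rw [← map_sub, mem_I hrN, ← neg_sub, dvd_neg]
          exact h
        · left
          rw [Set.mem_ofPred_eq, ← map_sub, mem_I hrN, ← neg_sub, dvd_neg]
          exact h
        · right
          rw [Set.mem_ofPred_eq, ← map_sub, mem_I hrN, ← neg_sub, dvd_neg]
          exact h
      refine (Set.ncard_le_ncard hsub (Set.toFinite _)).trans ((Set.ncard_union_le _ _).trans ?_)
      have := hcl c₁
      have := hcl c₂
      omega
    · push Not at hne2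
      have hsub : C₀ ⊆ {c | c - c₁ ∈ I P N r} := fun c hc => hne2 c hc
      have := (Set.ncard_le_ncard hsub (Set.toFinite _)).trans (hcl c₁)
      omega
  · rw [Set.not_nonempty_iff_eq_empty] at hne
    rw [hne]
    simp

end FDN

open FDN in
theorem fdn_thm : FDNStmt := by
  intro F _ _ h2 P hPm hP ε hε
  classical
  have hq2 : 2 ≤ Nat.card F := Finite.one_lt_card
  have hdeg : 1 ≤ P.natDegree := hP.natDegree_pos
  obtain ⟨r₀, hr₀⟩ := exists_pow_lt_of_lt_one (show (0 : ℝ) < ε / 3 by positivity)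
    (show (1 / 2 : ℝ) < 1 by norm_num)
  set r := r₀ + 1 with hr
  refine ⟨4 * r, fun N hN => ?_⟩
  set q := Nat.card F with hq
  set d := P.natDegree with hd
  obtain ⟨f2, c2⟩ := EQB_adj F (P ^ N) (pow_ne_zero _ hP.ne_zero)
  rw [natDegree_pow] at c2
  obtain ⟨-, cI⟩ := card_I (F := F) hP.ne_zero (show r ≤ N by omega)
  have : Fintype (AdjoinRoot (P ^ N)) := Fintype.ofFinite _
  set R := AdjoinRoot (P ^ N) with hR
  have hcR : Fintype.card R = q ^ (N * d) := by
    rw [← Nat.card_eq_fintype_card, c2]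
  set S : Finset (R × R × R) := Finset.univ.filter fun t => disc t.1 t.2.1 t.2.2 = 0 with hS
  have hSn : {t : R × R × R | disc t.1 t.2.1 t.2.2 = 0}.ncard = S.card := by
    rw [← Set.ncard_coe_finset]
    congr 1
    ext t
    simp [hS]
  set G := S.filter fun t => (3 : F) ≠ 0 ∨ t.1 ∉ I P N r with hG
  set Bb := S.filter fun t => ¬ ((3 : F) ≠ 0 ∨ t.1 ∉ I P N r) with hBb
  have hsplit : G.card + Bb.card = S.card := Finset.card_filter_add_card_filter_not _
  -- the good part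
  have hGc : G.card ≤ 2 * q ^ ((N - r) * d) * (G.image fun t => (t.1, t.2.1)).card := by
    apply Finset.card_le_mul_card_image
    intro ab hab
    obtain ⟨t, ht, rfl⟩ := Finset.mem_image.1 hab
    obtain ⟨-, ht2⟩ := Finset.mem_filter.1 ht
    have h5 := fib hP h2 hN (by omega) t.1 t.2.1 ht2
    refine le_trans ?_ h5
    rw [← Set.ncard_coe_finset]
    apply Set.ncard_le_ncard_of_injOn (fun s : R × R × R => s.2.2)
    · intro s hs
      obtain ⟨hs1, hs2⟩ := Finset.mem_filter.1 (Finset.mem_coe.1 hs)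
      obtain ⟨hs3, -⟩ := Finset.mem_filter.1 hs1
      obtain ⟨-, hs4⟩ := Finset.mem_filter.1 hs3
      simp only [Prod.mk.injEq] at hs2
      rw [hs2.1, hs2.2] at hs4
      exact hs4
    · intro s hs s' hs' hss
      obtain ⟨-, hs2⟩ := Finset.mem_filter.1 (Finset.mem_coe.1 hs)
      obtain ⟨-, hs2'⟩ := Finset.mem_filter.1 (Finset.mem_coe.1 hs')
      simp only [Prod.mk.injEq] at hs2 hs2'
      obtain ⟨s1, s2, s3⟩ := s
      obtain ⟨s1', s2', s3'⟩ := s'
      simp only at hs2 hs2' hss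
      rw [hs2.1, hs2.2, hs2'.1, hs2'.2, hss]
  have hGi : (G.image fun t => (t.1, t.2.1)).card ≤ q ^ (N * d) * q ^ (N * d) := by
    refine (Finset.card_le_univ _).trans ?_
    rw [Fintype.card_prod, hcR]
  -- the bad part
  have hBc : Bb.card ≤ q ^ ((N - r) * d) * (q ^ (N * d) * q ^ (N * d)) := by
    have hsub : (Bb : Set (R × R × R)) ⊆ (I P N r) ×ˢ (Set.univ : Set (R × R)) := by
      intro t ht
      obtain ⟨-, ht2⟩ := Finset.mem_filter.1 (Finset.mem_coe.1 ht)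
      push Not at ht2
      exact ⟨ht2.2, Set.mem_univ _⟩
    rw [← Set.ncard_coe_finset]
    refine (Set.ncard_le_ncard hsub (Set.toFinite _)).trans ?_
    rw [Set.ncard_prod, Set.ncard_univ, Nat.card_eq_fintype_card, Fintype.card_prod, hcR]
    exact Nat.mul_le_mul_right _ cI
  have htot : S.card ≤ 3 * (q ^ ((N - r) * d) * (q ^ (N * d) * q ^ (N * d))) := by
    have h6 : G.card ≤ 2 * q ^ ((N - r) * d) * (q ^ (N * d) * q ^ (N * d)) :=
      hGc.trans (Nat.mul_le_mul_left _ hGi)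
    have h7 : 2 * q ^ ((N - r) * d) * (q ^ (N * d) * q ^ (N * d)) =
        2 * (q ^ ((N - r) * d) * (q ^ (N * d) * q ^ (N * d))) := by ring
    rw [h7] at h6
    omega
  rw [hSn]
  have h8 : q ^ (r * d) * (q ^ ((N - r) * d) * (q ^ (N * d) * q ^ (N * d))) =
      q ^ (3 * (N * d)) := by
    rw [← pow_add, ← pow_add, ← pow_add]
    congr 1
    have : N = r + (N - r) := by omega
    calc r * d + ((N - r) * d + (N * d + N * d)) = (r + (N - r)) * d + (N * d + N * d) := by ring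
      _ = N * d + (N * d + N * d) := by rw [← this]
      _ = 3 * (N * d) := by ring
  have h9 : (2 : ℝ) ^ r₀ ≤ (q : ℝ) ^ (r * d) := by
    have h10 : 2 ^ r₀ ≤ q ^ (r * d) := by
      calc 2 ^ r₀ ≤ 2 ^ (r * d) := Nat.pow_le_pow_right (by norm_num) (by nlinarith)
        _ ≤ q ^ (r * d) := Nat.pow_le_pow_left hq2 _
    exact_mod_cast h10
  have h11 : (3 : ℝ) ≤ ε * (q : ℝ) ^ (r * d) := by
    have h12 : (1 / 2 : ℝ) ^ r₀ * 2 ^ r₀ = 1 := by
      rw [← mul_pow]
      norm_num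
    have h13 : (1 : ℝ) ≤ ε / 3 * 2 ^ r₀ := by
      rw [← h12]
      exact mul_le_mul_of_nonneg_right hr₀.le (by positivity)
    have h14 : ε / 3 * 2 ^ r₀ ≤ ε / 3 * (q : ℝ) ^ (r * d) :=
      mul_le_mul_of_nonneg_left h9 (by positivity)
    linarith
  have h15 : (S.card : ℝ) ≤ 3 * ((q : ℝ) ^ ((N - r) * d) * ((q : ℝ) ^ (N * d) * (q : ℝ) ^ (N * d))) := by
    exact_mod_cast htot
  have h16 : (q : ℝ) ^ (3 * (N * d)) =
      (q : ℝ) ^ (r * d) * ((q : ℝ) ^ ((N - r) * d) * ((q : ℝ) ^ (N * d) * (q : ℝ) ^ (N * d))) := by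
    exact_mod_cast h8.symm
  rw [h16]
  calc (S.card : ℝ) ≤ 3 * ((q : ℝ) ^ ((N - r) * d) *
        ((q : ℝ) ^ (N * d) * (q : ℝ) ^ (N * d))) := h15
    _ ≤ (ε * (q : ℝ) ^ (r * d)) * ((q : ℝ) ^ ((N - r) * d) *
        ((q : ℝ) ^ (N * d) * (q : ℝ) ^ (N * d))) :=
        mul_le_mul_of_nonneg_right h11 (by positivity)
    _ = _ := by ring

end Pool.AVS
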