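import Pool.Agent.H33.AVR.COR
import Pool.Agent.H14.AVS.S1

/-!
# INH: the pair of Gram matrices determines the class
-/

set_option autoImplicit false

open Polynomial Matrix

namespace Pool.AVS

open Pool.AVR

namespace INH

theorem rep_mk {K : Type} [Field K] (a b c : K) (h : K[X]) (G B : Matrix (Fin 3) (Fin 3) K)
    (hR : RepH a b c h G B) :
    ∃ ε : Fin 3 → COR.L a b c,
      (∀ i j, COR.T a b c (ε i * ε j * AdjoinRoot.mk _ h) = G i j) ∧
      ∀ i j, COR.T a b c (AdjoinRoot.root _ * (ε i * ε j * AdjoinRoot.mk _ h)) = B i j := by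
  obtain ⟨e, h1, h2⟩ := hR
  refine ⟨fun i => AdjoinRoot.mk _ (e i), fun i j => ?_, fun i j => ?_⟩
  · rw [← map_mul, ← map_mul, COR.T_mk, h1]
  · rw [← map_mul, ← map_mul, ← AdjoinRoot.mk_X, ← map_mul, COR.T_mk, h2]

end INH

theorem inh_thm : INHStmt := by
  intro K _ _ a b c p₁ p₂ B hR1 hR2
  obtain ⟨ε, h1, h2⟩ := INH.rep_mk a b c p₁ _ _ hR1
  obtain ⟨ε', h1', h2'⟩ := INH.rep_mk a b c p₂ _ _ hR2
  set η₁ := (AdjoinRoot.mk (cub a b c)) p₁ with hη₁
  set η₂ := (AdjoinRoot.mk (cub a b c)) p₂ with hη₂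
  set θ := AdjoinRoot.root (cub a b c) with hθ
  set β := COR.bas a b c ε η₁ h1 with hβ
  set β' := COR.bas a b c ε' η₂ h1' with hβ'
  have m1 := COR.leftMul a b c ε η₁ h1 B h2
  have m2 := COR.leftMul a b c ε' η₂ h1' B h2'
  have hb : ∀ i, β i = ε i := fun i => COR.bas_apply a b c ε η₁ h1 i
  have hb' : ∀ i, β' i = ε' i := fun i => COR.bas_apply a b c ε' η₂ h1' i
  set φ : COR.L a b c ≃ₗ[K] COR.L a b c := β.equiv β' (Equiv.refl _) with hφ
  have hφi : ∀ i, φ (β i) = β' i := fun i => by
    rw [hφ, Module.Basis.equiv_apply, Equiv.refl_apply]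
  have e1 : ∀ j, θ * β j = ∑ i, (AA K * B) i j • β i := by
    intro j
    rw [← β.sum_repr (θ * β j)]
    refine Finset.sum_congr rfl fun i _ => ?_
    rw [← m1, Algebra.leftMulMatrix_eq_repr_mul]
  have e2 : ∀ j, θ * β' j = ∑ i, (AA K * B) i j • β' i := by
    intro j
    rw [← β'.sum_repr (θ * β' j)]
    refine Finset.sum_congr rfl fun i _ => ?_
    rw [← m2, Algebra.leftMulMatrix_eq_repr_mul]
  have hcomm : ∀ z, φ (θ * z) = θ * φ z := by
    have : φ.toLinearMap.comp (LinearMap.mulLeft K θ) =
        (LinearMap.mulLeft K θ).comp φ.toLinearMap := by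
      refine β.ext fun j => ?_
      simp only [LinearMap.comp_apply, LinearMap.mulLeft_apply, LinearEquiv.coe_coe]
      rw [e1, hφi, e2, map_sum]
      refine Finset.sum_congr rfl fun i _ => ?_
      rw [map_smul, hφi]
    intro z
    exact LinearMap.congr_fun this z
  set κ := φ 1 with hκ
  have hmul : ∀ z, φ z = κ * z := by
    intro z
    obtain ⟨p, rfl⟩ := AdjoinRoot.mk_surjective z
    have key : ∀ (p : K[X]) (w : COR.L a b c),
        φ (AdjoinRoot.mk (cub a b c) p * w) = AdjoinRoot.mk (cub a b c) p * φ w := by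
      intro p
      induction p using Polynomial.induction_on' with
      | add p q hp hq =>
        intro w
        rw [map_add, add_mul, map_add, hp, hq, add_mul]
      | monomial n r =>
        induction n with
        | zero =>
          intro w
          have : (AdjoinRoot.mk (cub a b c)) (monomial 0 r) = algebraMap K (COR.L a b c) r := by
            rw [monomial_zero_left]
            rfl
          rw [this, ← Algebra.smul_def, map_smul, Algebra.smul_def]
        | succ n ih =>
          intro w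
          have : (AdjoinRoot.mk (cub a b c)) (monomial (n + 1) r) =
              (AdjoinRoot.mk (cub a b c)) (monomial n r) * θ := by
            rw [hθ, ← AdjoinRoot.mk_X, ← map_mul, monomial_mul_X]
          rw [this, mul_assoc, ih, hcomm, mul_assoc]
    have := key p 1
    rw [mul_one] at this
    rw [this, ← hκ, mul_comm]
  have hε : ∀ i, β' i = κ * β i := fun i => by rw [← hφi, hmul]
  have hz : κ ^ 2 * η₂ - η₁ = 0 := by
    refine COR.nondeg a b c _ fun z => ?_
    have h3 : ∀ i j, COR.T a b c (β i * (β j * (κ ^ 2 * η₂ - η₁))) = 0 := by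
      intro i j
      have h4 : β i * (β j * (κ ^ 2 * η₂ - η₁)) = ε' i * ε' j * η₂ - ε i * ε j * η₁ := by
        rw [← hb', ← hb', hε, hε, ← hb, ← hb]
        ring
      rw [h4, map_sub, h1', h1, sub_self]
    have h5 : ∀ i w, COR.T a b c (β i * (w * (κ ^ 2 * η₂ - η₁))) = 0 := by
      intro i w
      have : (COR.T a b c).comp ((LinearMap.mulLeft K (β i)).comp
          (LinearMap.mulRight K (κ ^ 2 * η₂ - η₁))) = 0 := by
        refine β.ext fun j => ?_
        simp only [LinearMap.comp_apply, LinearMap.mulLeft_apply, LinearMap.mulRight_apply,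
          LinearMap.zero_apply]
        exact h3 i j
      exact LinearMap.congr_fun this w
    have h6 : ∀ u w, COR.T a b c (u * (w * (κ ^ 2 * η₂ - η₁))) = 0 := by
      intro u w
      have : (COR.T a b c).comp (LinearMap.mulRight K (w * (κ ^ 2 * η₂ - η₁))) = 0 := by
        refine β.ext fun i => ?_
        simp only [LinearMap.comp_apply, LinearMap.mulRight_apply, LinearMap.zero_apply]
        exact h5 i w
      exact LinearMap.congr_fun this u
    have := h6 1 z
    rwa [one_mul] at this
  obtain ⟨k, hk⟩ := AdjoinRoot.mk_surjective κ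
  refine ⟨k, ?_, ?_⟩
  · obtain ⟨z, hz1⟩ := φ.surjective 1
    rw [hmul] at hz1
    obtain ⟨l, hl⟩ := AdjoinRoot.mk_surjective z
    rw [← hk, ← hl, ← map_mul, ← map_one (AdjoinRoot.mk (cub a b c)),
      AdjoinRoot.mk_eq_mk] at hz1
    obtain ⟨d, hd⟩ := hz1
    exact ⟨l, -d, by linear_combination hd⟩
  · rw [← AdjoinRoot.mk_eq_mk, map_mul, map_pow, hk, ← hη₁, ← hη₂]
    linear_combination -hz

end Pool.AVS
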