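import Pool.Agent.H14.AVS.S4

/-!
# TRL: over a finite field many matrices have no common isotropic vector
-/

set_option autoImplicit false

namespace Pool.AVS

open Polynomial Matrix Pool.AVR

namespace TRL

variable {k : Type} [Field k]

/-- The matrix with quartic `u ((r - a s)² - n s²) ((r - b s)² - m s²)`. -/
def Q (u a n b m e : k) : Matrix (Fin 3) (Fin 3) k :=
  !![u, -(u * (a + b)), e;
    -(u * (a + b)), u * (a ^ 2 - n + (b ^ 2 - m) + 4 * (a * b)) + e,
      2 * u * (a * (b ^ 2 - m) + b * (a ^ 2 - n));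
    e, 2 * u * (a * (b ^ 2 - m) + b * (a ^ 2 - n)), 4 * u * ((a ^ 2 - n) * (b ^ 2 - m))]

theorem Q_symm (u a n b m e : k) : (Q u a n b m e)ᵀ = Q u a n b m e := by
  ext i j
  fin_cases i <;> fin_cases j <;> simp [Q]

theorem ns_ne {n x y : k} (hn : ¬ IsSquare n) (h : x ^ 2 - n * y ^ 2 = 0) : x = 0 ∧ y = 0 := by
  by_cases hy : y = 0
  · subst hy
    refine ⟨?_, rfl⟩
    have : x ^ 2 = 0 := by linear_combination h
    exact pow_eq_zero_iff (two_ne_zero) |>.1 this
  · exfalso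
    apply hn
    refine ⟨x / y, ?_⟩
    field_simp
    linear_combination -h

theorem Q_good (h2 : (2 : k) ≠ 0) {u a n b m e : k} (hu : u ≠ 0) (hn : ¬ IsSquare n)
    (hm : ¬ IsSquare m) (z : Fin 3 → k) (hz : z ≠ 0) (hA : bil (AA k) z z = 0) :
    bil (Q u a n b m e) z z ≠ 0 := by
  have hA' : 2 * z 0 * z 2 + z 1 ^ 2 = 0 := by
    have := hA
    simp [bil, AA, Matrix.mulVec, dotProduct, Fin.sum_univ_three] at this
    linear_combination this
  have hB : bil (Q u a n b m e) z z = u * z 0 ^ 2 - 2 * (u * (a + b)) * (z 0 * z 1) +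
      2 * e * (z 0 * z 2) + (u * (a ^ 2 - n + (b ^ 2 - m) + 4 * (a * b)) + e) * z 1 ^ 2 +
      2 * (2 * u * (a * (b ^ 2 - m) + b * (a ^ 2 - n))) * (z 1 * z 2) +
      4 * u * ((a ^ 2 - n) * (b ^ 2 - m)) * z 2 ^ 2 := by
    simp [bil, Q, Matrix.mulVec, dotProduct, Fin.sum_univ_three]
    ring
  rw [hB]
  intro h0
  by_cases hz0 : z 0 = 0
  · have hz1 : z 1 = 0 := by
      rw [hz0] at hA'
      have : z 1 ^ 2 = 0 := by linear_combination hA'
      exact pow_eq_zero_iff (two_ne_zero) |>.1 this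
    have hz2 : z 2 ≠ 0 := by
      intro h
      apply hz
      funext i
      fin_cases i
      · exact hz0
      · exact hz1
      · exact h
    rw [hz0, hz1] at h0
    have h3 : (a ^ 2 - n) * (b ^ 2 - m) = 0 := by
      have h4 : (2 * 2 * u * z 2 ^ 2) * ((a ^ 2 - n) * (b ^ 2 - m)) = 0 := by
        linear_combination h0
      rcases mul_eq_zero.1 h4 with h5 | h5
      · exact absurd h5 (mul_ne_zero (mul_ne_zero (mul_ne_zero h2 h2) hu) (pow_ne_zero _ hz2))
      · exact h5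
    rcases mul_eq_zero.1 h3 with h5 | h5
    · exact hn ⟨a, by linear_combination -h5⟩
    · exact hm ⟨b, by linear_combination -h5⟩
  · have h3 : u * (((z 0 - a * z 1) ^ 2 - n * z 1 ^ 2) *
        ((z 0 - b * z 1) ^ 2 - m * z 1 ^ 2)) = 0 := by
      have h4 : z 0 * z 2 * 2 = -z 1 ^ 2 := by linear_combination hA'
      linear_combination z 0 ^ 2 * h0 - (e * z 0 ^ 2) * hA' -
        (2 * (u * (a * (b ^ 2 - m) + b * (a ^ 2 - n)))) * z 0 * z 1 * hA' -
        (u * ((a ^ 2 - n) * (b ^ 2 - m))) * (2 * z 0 * z 2 - z 1 ^ 2) * hA'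
    rcases mul_eq_zero.1 h3 with h5 | h5
    · exact hu h5
    · rcases mul_eq_zero.1 h5 with h6 | h6
      · obtain ⟨h7, h8⟩ := ns_ne hn h6
        rw [h8] at h7
        exact hz0 (by linear_combination h7)
      · obtain ⟨h7, h8⟩ := ns_ne hm h6
        rw [h8] at h7
        exact hz0 (by linear_combination h7)

/-- Half of the unique factorisation. -/
theorem half (h2 : (2 : k) ≠ 0) {a n b m a' n' b' m' : k} (hn : ¬ IsSquare n)
    (e3 : a + b = a' + b')
    (e2 : a ^ 2 - n + (b ^ 2 - m) + 4 * (a * b) = a' ^ 2 - n' + (b' ^ 2 - m') + 4 * (a' * b'))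
    (e1 : a * (b ^ 2 - m) + b * (a ^ 2 - n) = a' * (b' ^ 2 - m') + b' * (a' ^ 2 - n'))
    (e0 : (a ^ 2 - n) * (b ^ 2 - m) = (a' ^ 2 - n') * (b' ^ 2 - m')) :
    (a = a' ∧ n = n') ∨ (a = b' ∧ n = m') := by
  set x := (a - a') ^ 2 + n - n' with hx
  set y := 2 * (a - a') with hy
  set x' := (a - b') ^ 2 + n - m' with hx'
  set y' := 2 * (a - b') with hy'
  have hR : x * x' + n * (y * y') = 0 := by
    rw [hx, hy, hx', hy']
    linear_combination 2 * (a ^ 3 + 3 * a * n) * e3 - (a ^ 2 + n) * e2 + 2 * a * e1 - e0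
  have hI : x * y' + x' * y = 0 := by
    rw [hx, hy, hx', hy']
    linear_combination 2 * (3 * a ^ 2 + n) * e3 - (2 * a) * e2 + 2 * e1
  have hN : (x ^ 2 - n * y ^ 2) * (x' ^ 2 - n * y' ^ 2) = 0 := by
    linear_combination (x * x' + n * (y * y')) * hR - n * (x * y' + x' * y) * hI
  rcases mul_eq_zero.1 hN with h | h
  · obtain ⟨h1, h3⟩ := ns_ne hn h
    left
    have h4 : a = a' := by
      rcases mul_eq_zero.1 (hy ▸ h3 : 2 * (a - a') = 0) with h5 | h5
      · exact absurd h5 h2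
      · linear_combination h5
    refine ⟨h4, ?_⟩
    rw [hx, h4] at h1
    linear_combination h1
  · obtain ⟨h1, h3⟩ := ns_ne hn h
    right
    have h4 : a = b' := by
      rcases mul_eq_zero.1 (hy' ▸ h3 : 2 * (a - b') = 0) with h5 | h5
      · exact absurd h5 h2
      · linear_combination h5
    refine ⟨h4, ?_⟩
    rw [hx', h4] at h1
    linear_combination h1

theorem Q_inj (h2 : (2 : k) ≠ 0) {u a n b m e u' a' n' b' m' e' : k} (hu : u ≠ 0)
    (hn : ¬ IsSquare n) (h : Q u a n b m e = Q u' a' n' b' m' e') :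
    u = u' ∧ e = e' ∧ ((a = a' ∧ n = n' ∧ b = b' ∧ m = m') ∨
      (a = b' ∧ n = m' ∧ b = a' ∧ m = n')) := by
  have h00 := congrFun (congrFun h 0) 0
  have h01 := congrFun (congrFun h 0) 1
  have h02 := congrFun (congrFun h 0) 2
  have h11 := congrFun (congrFun h 1) 1
  have h12 := congrFun (congrFun h 1) 2
  have h22 := congrFun (congrFun h 2) 2
  simp only [Q, Matrix.of_apply, Matrix.cons_val', Matrix.cons_val_zero, Matrix.cons_val_one,
    Matrix.cons_val, Matrix.cons_val_fin_one] at h00 h01 h02 h11 h12 h22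
  subst h00
  subst h02
  have e3 : a + b = a' + b' := by
    apply mul_left_cancel₀ hu
    linear_combination -h01
  have e2 : a ^ 2 - n + (b ^ 2 - m) + 4 * (a * b) =
      a' ^ 2 - n' + (b' ^ 2 - m') + 4 * (a' * b') := by
    apply mul_left_cancel₀ hu
    linear_combination h11
  have e1 : a * (b ^ 2 - m) + b * (a ^ 2 - n) = a' * (b' ^ 2 - m') + b' * (a' ^ 2 - n') := by
    apply mul_left_cancel₀ (mul_ne_zero h2 hu)
    linear_combination h12
  have e0 : (a ^ 2 - n) * (b ^ 2 - m) = (a' ^ 2 - n') * (b' ^ 2 - m') := by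
    apply mul_left_cancel₀ (mul_ne_zero (mul_ne_zero h2 h2) hu)
    linear_combination h22
  refine ⟨rfl, rfl, ?_⟩
  rcases half h2 hn e3 e2 e1 e0 with ⟨h5, h6⟩ | ⟨h5, h6⟩
  · left
    subst h5 h6
    have h7 : b = b' := by linear_combination e3
    subst h7
    refine ⟨rfl, rfl, rfl, ?_⟩
    linear_combination -e2
  · right
    subst h5 h6
    have h7 : b = a' := by linear_combination e3
    subst h7
    refine ⟨rfl, rfl, rfl, ?_⟩
    linear_combination -e2

/-- The parametrisation. -/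
def par (n₀ : k) (p : k × k × k × k × k × k) : Matrix (Fin 3) (Fin 3) k :=
  Q p.1 p.2.1 (n₀ * p.2.2.1 ^ 2) p.2.2.2.1 (n₀ * p.2.2.2.2.1 ^ 2) p.2.2.2.2.2

/-- The eight possible elements of a fibre. -/
def eight (p : k × k × k × k × k × k) (j : Bool × Bool × Bool) : k × k × k × k × k × k :=
  if j.1 then (p.1, p.2.1, if j.2.1 then p.2.2.1 else -p.2.2.1, p.2.2.2.1,
    if j.2.2 then p.2.2.2.2.1 else -p.2.2.2.2.1, p.2.2.2.2.2)
  else (p.1, p.2.2.2.1, if j.2.1 then p.2.2.2.2.1 else -p.2.2.2.2.1, p.2.1,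
    if j.2.2 then p.2.2.1 else -p.2.2.1, p.2.2.2.2.2)

theorem nsq {n₀ t : k} (hn : ¬ IsSquare n₀) (ht : t ≠ 0) : ¬ IsSquare (n₀ * t ^ 2) := by
  rintro ⟨x, hx⟩
  apply hn
  refine ⟨x / t, ?_⟩
  field_simp
  linear_combination hx

theorem pm {n₀ t s : k} (hn : ¬ IsSquare n₀) (h : n₀ * t ^ 2 = n₀ * s ^ 2) : t = s ∨ t = -s := by
  have h0 : n₀ ≠ 0 := by
    rintro rfl
    exact hn (IsSquare.zero)
  have h1 : t ^ 2 = s ^ 2 := mul_left_cancel₀ h0 h
  exact sq_eq_sq_iff_eq_or_eq_neg.1 h1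

end TRL

open TRL in
theorem trl_thm : TRLStmt := by
  refine ⟨1 / 27, by norm_num, ?_⟩
  intro k _ _ h2
  classical
  have : Fintype k := Fintype.ofFinite k
  obtain ⟨n₀, hn₀⟩ : ∃ n₀ : k, ¬ IsSquare n₀ := by
    apply FiniteField.exists_nonsquare
    intro h
    apply h2
    have h3 : CharP k 2 := by
      rw [← h]
      exact ringChar.charP k
    exact CharP.cast_eq_zero k 2
  set T : Finset (k × k × k × k × k × k) :=
    (Finset.univ.erase 0) ×ˢ Finset.univ ×ˢ (Finset.univ.erase 0) ×ˢ Finset.univ ×ˢ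
      (Finset.univ.erase 0) ×ˢ Finset.univ with hT
  have hmem : ∀ p, p ∈ T ↔ p.1 ≠ 0 ∧ p.2.2.1 ≠ 0 ∧ p.2.2.2.2.1 ≠ 0 := by
    intro p
    simp [hT, Finset.mem_product]
  have hfib : ∀ x ∈ T.image (par n₀), (T.filter fun p => par n₀ p = x).card ≤ 8 := by
    intro x hx
    obtain ⟨p, hp, rfl⟩ := Finset.mem_image.1 hx
    have hsub : (T.filter fun p' => par n₀ p' = par n₀ p) ⊆ Finset.univ.image (eight p) := by
      intro p' hp'
      obtain ⟨hp1, hp2⟩ := Finset.mem_filter.1 hp'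
      obtain ⟨u1, u2, _⟩ := (hmem p').1 hp1
      obtain ⟨v1, v2, v3⟩ := Q_inj h2 u1 (nsq hn₀ u2) hp2
      rw [Finset.mem_image]
      obtain ⟨u, a, t, b, s, e⟩ := p
      obtain ⟨u', a', t', b', s', e'⟩ := p'
      simp only at v1 v2 v3
      rcases v3 with ⟨w1, w2, w3, w4⟩ | ⟨w1, w2, w3, w4⟩
      · rcases pm hn₀ w2 with y1 | y1 <;> rcases pm hn₀ w4 with y2 | y2
        · exact ⟨(true, true, true), Finset.mem_univ _, by simp [eight, v1, v2, w1, w3, y1, y2]⟩
        · exact ⟨(true, true, false), Finset.mem_univ _, by simp [eight, v1, v2, w1, w3, y1, y2]⟩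
        · exact ⟨(true, false, true), Finset.mem_univ _, by simp [eight, v1, v2, w1, w3, y1, y2]⟩
        · exact ⟨(true, false, false), Finset.mem_univ _, by simp [eight, v1, v2, w1, w3, y1, y2]⟩
      · rcases pm hn₀ w2 with y1 | y1 <;> rcases pm hn₀ w4 with y2 | y2
        · exact ⟨(false, true, true), Finset.mem_univ _, by simp [eight, v1, v2, w1, w3, y1, y2]⟩
        · exact ⟨(false, true, false), Finset.mem_univ _, by simp [eight, v1, v2, w1, w3, y1, y2]⟩
        · exact ⟨(false, false, true), Finset.mem_univ _, by simp [eight, v1, v2, w1, w3, y1, y2]⟩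
        · exact ⟨(false, false, false), Finset.mem_univ _,
            by simp [eight, v1, v2, w1, w3, y1, y2]⟩
    refine (Finset.card_le_card hsub).trans (Finset.card_image_le.trans ?_)
    simp
  have hcard : T.card ≤ 8 * (T.image (par n₀)).card :=
    Finset.card_le_mul_card_image T 8 hfib
  have hgood : ((T.image (par n₀)).card : ℕ) ≤ {B : Matrix (Fin 3) (Fin 3) k | Bᵀ = B ∧
      ∀ z : Fin 3 → k, z ≠ 0 → bil (AA k) z z = 0 → bil B z z ≠ 0}.ncard := by
    rw [← Set.ncard_coe_finset]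
    apply Set.ncard_le_ncard _ (Set.toFinite _)
    intro B hB
    obtain ⟨p, hp, rfl⟩ := Finset.mem_image.1 (Finset.mem_coe.1 hB)
    obtain ⟨u1, u2, u3⟩ := (hmem p).1 hp
    exact ⟨Q_symm _ _ _ _ _ _, fun z hz hA => Q_good h2 u1 (nsq hn₀ u2) (nsq hn₀ u3) z hz hA⟩
  have hTc : T.card = (Fintype.card k - 1) * (Fintype.card k * ((Fintype.card k - 1) *
      (Fintype.card k * ((Fintype.card k - 1) * Fintype.card k)))) := by
    simp only [hT, Finset.card_product, Finset.card_erase_of_mem (Finset.mem_univ _),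
      Finset.card_univ]
  have hq3 : 3 ≤ Fintype.card k := by
    have h4 : 1 < Fintype.card k := Fintype.one_lt_card
    by_contra hlt
    have h5 : Fintype.card k = 2 := by omega
    have h6 : ((Fintype.card k : ℕ) : k) = 0 := by
      exact FiniteField.cast_card_eq_zero k
    rw [h5] at h6
    exact h2 (by exact_mod_cast h6)
  rw [Nat.card_eq_fintype_card]
  set q := Fintype.card k with hq
  have h9 : (T.card : ℝ) = ((q : ℝ) - 1) ^ 3 * (q : ℝ) ^ 3 := by
    rw [hTc]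
    have : 1 ≤ q := by omega
    push_cast [Nat.cast_sub this]
    ring
  have h10 : (T.card : ℝ) ≤ 8 * ({B : Matrix (Fin 3) (Fin 3) k | Bᵀ = B ∧
      ∀ z : Fin 3 → k, z ≠ 0 → bil (AA k) z z = 0 → bil B z z ≠ 0}.ncard : ℝ) := by
    have : T.card ≤ 8 * {B : Matrix (Fin 3) (Fin 3) k | Bᵀ = B ∧
      ∀ z : Fin 3 → k, z ≠ 0 → bil (AA k) z z = 0 → bil B z z ≠ 0}.ncard :=
      hcard.trans (Nat.mul_le_mul_left _ hgood)
    exact_mod_cast this
  have hqr : (3 : ℝ) ≤ q := by exact_mod_cast hq3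
  have h11 : (2 / 3 * (q : ℝ)) ^ 3 ≤ ((q : ℝ) - 1) ^ 3 := by
    apply pow_le_pow_left₀ (by positivity)
    linarith
  have h12 : (2 / 3 * (q : ℝ)) ^ 3 * (q : ℝ) ^ 3 ≤ ((q : ℝ) - 1) ^ 3 * (q : ℝ) ^ 3 :=
    mul_le_mul_of_nonneg_right h11 (by positivity)
  have h13 : (2 / 3 * (q : ℝ)) ^ 3 * (q : ℝ) ^ 3 = 8 / 27 * (q : ℝ) ^ 6 := by ring
  rw [h13, ← h9] at h12
  linarith

end Pool.AVS
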